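import Pool.Agent.Helper41.Wob5
import Pool.Agent.Helper41.Wob9
import Pool.Agent.Helper41.Wob12

/-!
Extensive amenability of the wobbling group, in its uniform and sequential forms, is equivalent
to recurrence.
-/

set_option autoImplicit false

namespace Pool.Agent.Results.MP_b4e171_al.SequentialExtensiveAmenability

open Filter Topology
open Pool.Agent.Helper41.Wob

/-- Recurrence: the first-return probability of simple random walk is one at every vertex
(the formula of the problem). -/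
def Recurrent {X : Type*} (G : SimpleGraph X) [G.LocallyFinite] : Prop :=
  ∀ x : X,
    ∑' p : {p : G.Walk x x // 0 < p.length ∧
              ∀ i : ℕ, 0 < i → i < p.length → p.getVert i ≠ x},
      ∏ i ∈ Finset.range p.1.length, ((G.degree (p.1.getVert i) : ENNReal))⁻¹ = 1

/-- Uniform extensive amenability: finitely supported probabilities on the finitely supported
configurations that are almost invariant under finitely many translations and, simultaneously,
under all permutations of displacement at most `R`. -/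
def UniformlyExtAmenable {X : Type*} (G : SimpleGraph X) : Prop :=
  ∀ (R : ℕ) (T : Finset (X →₀ ZMod 2)) (ε : ℝ), 0 < ε →
    ∃ φ : (X →₀ ZMod 2) → ℝ, (∀ h, 0 ≤ φ h) ∧ HasSum φ 1 ∧ (Function.support φ).Finite ∧
      (∀ t ∈ T, ∑' h, |φ (t + h) - φ h| ≤ ε) ∧
      ∀ σ : Equiv.Perm X, (∀ x, G.dist x (σ x) ≤ R) →
        ∑' h, |φ (Finsupp.equivMapDomain σ h) - φ h| ≤ ε

/-- Sequential extensive amenability: one sequence of probabilities on the configurations that is
asymptotically invariant under every translation and every permutation of bounded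
displacement. -/
def SequentiallyExtAmenable {X : Type*} (G : SimpleGraph X) : Prop :=
  ∃ φ : ℕ → (X →₀ ZMod 2) → ℝ, (∀ n h, 0 ≤ φ n h) ∧ (∀ n, HasSum (φ n) 1) ∧
    (∀ t : X →₀ ZMod 2, Tendsto (fun n => ∑' h, |φ n (t + h) - φ n h|) atTop (𝓝 0)) ∧
    ∀ σ : Equiv.Perm X, (∃ C : ℕ, ∀ x, G.dist x (σ x) ≤ C) →
      Tendsto (fun n => ∑' h, |φ n (Finsupp.equivMapDomain σ h) - φ n h|) atTop (𝓝 0)

/-- The weakest sequential form: asymptotic invariance is only required under one basic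
translation and under each involution that moves points to themselves or to a neighbour. -/
def WeaklySequentiallyExtAmenable {X : Type*} (G : SimpleGraph X) : Prop :=
  ∃ (x : X) (φ : ℕ → (X →₀ ZMod 2) → ℝ), (∀ n h, 0 ≤ φ n h) ∧ (∀ n, HasSum (φ n) 1) ∧
    Tendsto (fun n => ∑' h, |φ n (Finsupp.single x 1 + h) - φ n h|) atTop (𝓝 0) ∧
    ∀ σ : Equiv.Perm X, (∀ y, σ (σ y) = y) → (∀ y, G.dist y (σ y) ≤ 1) →
      Tendsto (fun n => ∑' h, |φ n (Finsupp.equivMapDomain σ h) - φ n h|) atTop (𝓝 0)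

/-- Absence of a Hilbert space gap: almost invariant unit vectors in `ℓ²` of the configurations,
for one basic translation and uniformly for all involutions that move points to themselves or to
a neighbour. -/
def NoSpectralGap {X : Type*} (G : SimpleGraph X) : Prop :=
  ∃ x : X, ∀ ε : ℝ, 0 < ε →
    ∃ f : (X →₀ ZMod 2) → ℝ, HasSum (fun h => f h ^ 2) 1 ∧
      ∑' h, (f (Finsupp.single x 1 + h) - f h) ^ 2 ≤ ε ∧
      ∀ σ : Equiv.Perm X, (∀ y, σ (σ y) = y) → (∀ y, G.dist y (σ y) ≤ 1) →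
        ∑' h, (f (Finsupp.equivMapDomain σ h) - f h) ^ 2 ≤ ε

lemma countable_vertices {X : Type*} (G : SimpleGraph X) [G.LocallyFinite] (hG : G.Connected) :
    Countable X := by
  obtain ⟨x0⟩ := hG.nonempty
  have h1 : (⋃ n : ℕ, (↑(ballF G n x0) : Set X)) = Set.univ := by
    rw [Set.eq_univ_iff_forall]
    intro y
    exact Set.mem_iUnion.2 ⟨G.dist x0 y, Finset.mem_coe.2 (ballF_dist hG _ le_rfl)⟩
  have h2 : (⋃ n : ℕ, (↑(ballF G n x0) : Set X)).Countable :=
    Set.countable_iUnion fun n => (Finset.finite_toSet _).countable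
  rw [h1] at h2
  exact Set.countable_univ_iff.1 h2

lemma degree_pos {X : Type*} [Nontrivial X] (G : SimpleGraph X) [G.LocallyFinite]
    (hG : G.Connected) (x : X) : 0 < G.degree x :=
  hG.preconnected.degree_pos_of_nontrivial x

lemma seq_of_uniform {X : Type*} (G : SimpleGraph X) [G.LocallyFinite] (hG : G.Connected)
    (h : UniformlyExtAmenable G) : SequentiallyExtAmenable G := by
  classical
  have := countable_vertices G hG
  obtain ⟨enum, henum⟩ := exists_surjective_nat (X →₀ ZMod 2)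
  have hpos : ∀ n : ℕ, (0 : ℝ) < 1 / ((n : ℝ) + 1) := fun n => by positivity
  choose φ h0 h1 h2 h3 h4 using fun n : ℕ =>
    h n ((Finset.range (n + 1)).image enum) (1 / ((n : ℝ) + 1)) (hpos n)
  have hlim : Tendsto (fun n : ℕ => 1 / ((n : ℝ) + 1)) atTop (𝓝 0) :=
    tendsto_one_div_add_atTop_nhds_zero_nat
  refine ⟨φ, h0, h1, fun t => ?_, fun σ hσ => ?_⟩
  · obtain ⟨k, rfl⟩ := henum t
    refine squeeze_zero' (Eventually.of_forall fun n => tsum_nonneg fun _ => abs_nonneg _)
      ?_ hlim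
    filter_upwards [eventually_ge_atTop k] with n hn
    exact h3 n _ (Finset.mem_image_of_mem _ (Finset.mem_range.2 (by omega)))
  · obtain ⟨C, hC⟩ := hσ
    refine squeeze_zero' (Eventually.of_forall fun n => tsum_nonneg fun _ => abs_nonneg _)
      ?_ hlim
    filter_upwards [eventually_ge_atTop C] with n hn
    exact h4 n σ fun x => (hC x).trans hn

lemma dist_swp {X : Type*} (G : SimpleGraph X) (τ : X → X) (hτ : ∀ x, τ (τ x) = x)
    (hadj : ∀ x, τ x = x ∨ G.Adj x (τ x)) (q : X → ZMod 2) (x : X) :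
    G.dist x (swpPerm τ hτ q x) ≤ 1 := by
  have h1 : swpPerm τ hτ q x = swp τ q x := rfl
  rw [h1]
  unfold swp
  split_ifs with h
  · simp
  · rcases hadj x with h2 | h2
    · rw [h2]; simp
    · exact (SimpleGraph.dist_eq_one_iff_adj.2 h2).le

lemma local_rec {X : Type*} (G : SimpleGraph X) [G.LocallyFinite] (x : X)
    (hd : 0 < G.degree x)
    (D : ℕ) (hD : ∀ x, G.degree x ≤ D)
    (h : ∀ (J : Type) (_ : Fintype J) (τ : J → X → X) (hτ : ∀ s x, τ s (τ s x) = x),
      (∀ s x, τ s x = x ∨ G.Adj x (τ s x)) → ∀ δ > 0,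
      ∃ f : (X →₀ ZMod 2) → ℝ, HasSum (fun h => f h ^ 2) 1 ∧
        (∀ s q, Dd f (cperm (swpPerm (τ s) (hτ s) q)) ≤ δ) ∧
        Dd f (fun h => Finsupp.single x 1 + h) ≤ δ) :
    ∀ z ∈ G.neighborFinset x, hitv G x Set.univ z = 1 := by
  by_contra hcon
  push Not at hcon
  obtain ⟨K, τ, o, hτ, hadj, ho, hsum⟩ := exists_tau (G := G) D hD
  obtain ⟨δ, hδ, hgap⟩ := gap x hd hcon τ hτ hadj o ho hsum
  obtain ⟨f, h1, h2, h3⟩ := h _ inferInstance τ hτ hadj δ hδ
  exact hgap f h1 h2 h3

theorem result : ∀ (X : Type) [Nontrivial X] (G : SimpleGraph X) [G.LocallyFinite],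
    G.Connected → (∃ D : ℕ, ∀ x : X, G.degree x ≤ D) →
    List.TFAE [Recurrent G, UniformlyExtAmenable G, SequentiallyExtAmenable G,
      WeaklySequentiallyExtAmenable G, NoSpectralGap G] := by
  intro X _ G _ hG hDD
  obtain ⟨D, hD⟩ := hDD
  classical
  have hrec : ∀ x : X, (∀ z ∈ G.neighborFinset x, hitv G x Set.univ z = 1) →
      UniformlyExtAmenable G := fun x hx R T ε hε => uniform_of_rec hG D hD x hx R T ε hε
  have hloc : ∀ x : X, ret G x = 1 ↔ ∀ z ∈ G.neighborFinset x, hitv G x Set.univ z = 1 :=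
    fun x => ret_eq_one_iff x (degree_pos G hG x)
  have hgapuse : NoSpectralGap G → ∃ x : X,
      ∀ z ∈ G.neighborFinset x, hitv G x Set.univ z = 1 := by
    rintro ⟨x, hx⟩
    refine ⟨x, local_rec G x (degree_pos G hG x) D hD ?_⟩
    intro J _ τ hτ hadj δ hδ
    obtain ⟨f, h1, h2, h3⟩ := hx δ hδ
    refine ⟨f, h1, fun s q => ?_, h2⟩
    exact h3 (swpPerm (τ s) (hτ s) q) (fun y => swp_invol (hτ s) q y)
      (dist_swp G (τ s) (hτ s) (hadj s) q)
  have hgap1 : ∀ x : X, NoSpectralGap G → UniformlyExtAmenable G := by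
    intro _ h
    obtain ⟨x, hx⟩ := hgapuse h
    exact hrec x hx
  have hunigap : UniformlyExtAmenable G → ∀ x : X, ∀ ε : ℝ, 0 < ε →
    ∃ f : (X →₀ ZMod 2) → ℝ, HasSum (fun h => f h ^ 2) 1 ∧
      ∑' h, (f (Finsupp.single x 1 + h) - f h) ^ 2 ≤ ε ∧
      ∀ σ : Equiv.Perm X, (∀ y, σ (σ y) = y) → (∀ y, G.dist y (σ y) ≤ 1) →
        ∑' h, (f (Finsupp.equivMapDomain σ h) - f h) ^ 2 ≤ ε := by
    intro h x ε hε
    obtain ⟨φ, h0, h1, -, h2, h3⟩ := h 1 {Finsupp.single x 1} ε hε
    refine ⟨fun h => Real.sqrt (φ h), ?_, ?_, ?_⟩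
    · simp_rw [fun h => Real.sq_sqrt (h0 h)]; exact h1
    · exact (Dd_sqrt φ h0 h1.summable (Equiv.addLeft (Finsupp.single x 1))).trans
        (h2 _ (Finset.mem_singleton_self _))
    · intro σ _ hσ
      exact (Dd_sqrt φ h0 h1.summable (cperm σ)).trans (h3 σ hσ)
  have hunirec : UniformlyExtAmenable G → Recurrent G := by
    intro h x
    have : ret G x = 1 := by
      rw [hloc]
      refine local_rec G x (degree_pos G hG x) D hD ?_
      intro J _ τ hτ hadj δ hδ
      obtain ⟨f, h1, h2, h3⟩ := hunigap h x δ hδ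
      refine ⟨f, h1, fun s q => ?_, h2⟩
      exact h3 (swpPerm (τ s) (hτ s) q) (fun y => swp_invol (hτ s) q y)
        (dist_swp G (τ s) (hτ s) (hadj s) q)
    exact this
  tfae_have 1 → 2 := by
    intro h
    obtain ⟨x⟩ := hG.nonempty
    exact hrec x ((hloc x).1 (h x))
  tfae_have 2 → 3 := seq_of_uniform G hG
  tfae_have 3 → 4 := by
    rintro ⟨φ, h0, h1, h2, h3⟩
    obtain ⟨x⟩ := hG.nonempty
    exact ⟨x, φ, h0, h1, h2 _, fun σ _ hσ => h3 σ ⟨1, hσ⟩⟩
  tfae_have 4 → 1 := by
    rintro ⟨x, φ, h0, h1, h2, h3⟩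
    apply hunirec
    apply hrec x
    refine local_rec G x (degree_pos G hG x) D hD ?_
    intro J _ τ hτ hadj δ hδ
    set f : ℕ → (X →₀ ZMod 2) → ℝ := fun n h => Real.sqrt (φ n h) with hf
    have hfs : ∀ n, HasSum (fun h => f n h ^ 2) 1 := by
      intro n
      have : (fun h => f n h ^ 2) = φ n := by
        funext h; exact Real.sq_sqrt (h0 n h)
      rw [this]; exact h1 n
    have hsw : ∀ s, ∀ᶠ n in atTop, ∀ q : X → ZMod 2,
        Dd (f n) (cperm (swpPerm (τ s) (hτ s) q)) ≤ δ := by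
      intro s
      refine baire_uniform f (fun n => (hfs n).summable) (τ s) (hτ s) (fun q => ?_) δ hδ
      refine squeeze_zero (fun n => Dd_nonneg _ _)
        (fun n => Dd_sqrt (φ n) (h0 n) (h1 n).summable (cperm (swpPerm (τ s) (hτ s) q))) ?_
      exact h3 (swpPerm (τ s) (hτ s) q) (fun y => swp_invol (hτ s) q y)
        (dist_swp G (τ s) (hτ s) (hadj s) q)
    have htr : ∀ᶠ n in atTop, Dd (f n) (fun h => Finsupp.single x 1 + h) ≤ δ := by
      have h4 : Tendsto (fun n => Dd (f n) (fun h => Finsupp.single x 1 + h)) atTop (𝓝 0) :=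
        squeeze_zero (fun n => Dd_nonneg _ _)
          (fun n => Dd_sqrt (φ n) (h0 n) (h1 n).summable (Equiv.addLeft (Finsupp.single x 1))) h2
      exact h4.eventually (ge_mem_nhds hδ)
    obtain ⟨n, hn1, hn2⟩ := ((eventually_all.2 hsw).and htr).exists
    exact ⟨f n, hfs n, hn1, hn2⟩
  tfae_have 2 → 5 := by
    intro h
    obtain ⟨x⟩ := hG.nonempty
    exact ⟨x, hunigap h x⟩
  tfae_have 5 → 1 := by
    intro h
    obtain ⟨x⟩ := hG.nonempty
    exact hunirec (hgap1 x h)
  tfae_finish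

end Pool.Agent.Results.MP_b4e171_al.SequentialExtensiveAmenability
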