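import Pool.Agent.Helper78.Zd.Main
import Pool.Agent.Helper78.Zd.Wedge

/-!
# The wobbling groups of `Z^d` (`d ≥ 3`) and of thin wedges of `Z^3` do not act extensively amenably

`ExtAm G` is extensive amenability of the action of the wobbling group of `G` on the vertex set
`X`: a finitely additive probability on the subsets of `X →₀ ZMod 2` which is invariant under all
translations and under all permutations of `X` of bounded displacement for the graph metric.
`grid d` is the graph on `Z^d` in which `a`, `b` are adjacent if `∑ i, |a i - b i| = 1`.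
`wedge q` is the set of the `a` in `Z^3` with `0 ≤ a 1 ≤ a 0`, `0 ≤ a 2` and `a 2 ^ q ≤ a 0`, and
`wedgeGraph q` is the subgraph of `grid 3` induced on it.
-/

open Pool.Agent.Helper78.Zd

namespace Pool.Agent.Results.MP_b4e171_al.WobblingLattices

/-- (1) A connected graph whose vertex set contains an injective image of the wedge `wedge q` under
a map which sends points at bounded distance to vertices at bounded distance has a wobbling group
that does not act extensively amenably. (2) This holds for the wedge `wedgeGraph q` itself, for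
every `q`, (3) for every connected graph containing an injective Lipschitz copy of `Z^3`, and
(4) for `Z^d`, `d ≥ 3`. -/
theorem result :
    (∀ (q : ℕ) (X : Type) (G : SimpleGraph X), G.Connected →
      ∀ F : (Fin 3 → ℤ) → X, Set.InjOn F (wedge q) →
      (∀ K : ℕ, ∃ C : ℕ, ∀ a ∈ wedge q, ∀ b ∈ wedge q, (∀ i, |a i - b i| ≤ K) →
        G.dist (F a) (F b) ≤ C) → ¬ ExtAm G) ∧
    (∀ q : ℕ, (wedgeGraph q).Connected ∧ ¬ ExtAm (wedgeGraph q)) ∧
    (∀ (X : Type) (G : SimpleGraph X), G.Connected →
      (∃ (F : (Fin 3 → ℤ) → X) (C : ℕ), Function.Injective F ∧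
        ∀ a b : Fin 3 → ℤ, (∀ i, |a i - b i| ≤ 1) → G.dist (F a) (F b) ≤ C) → ¬ ExtAm G) ∧
    (∀ d : ℕ, 3 ≤ d → ¬ ExtAm (grid d)) :=
  ⟨fun q X G _ F hF hC => final_wedge limitProp q X G F hF hC,
    fun q => ⟨wedgeGraph_connected q, final_wedgeGraph limitProp q⟩,
    fun X G hG ⟨F, C, hF, hC⟩ => main_coarse X G hG F hF C hC, fun d hd => main_grid d hd⟩

end Pool.Agent.Results.MP_b4e171_al.WobblingLattices
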